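import Mathlib

set_option autoImplicit false

namespace Pool.Agent.Results.MP_79f901_al.WreathV4

/-- Vertices of the spherically homogeneous rooted tree with branching sequence `m`: finite words
`l` with `l_i < m i`. The root is the empty word and `v` is above `w` when `v` is an initial
segment of `w`. -/
def Vert (m : ℕ → ℕ) : Type := {l : List ℕ // ∀ i (h : i < l.length), l.get ⟨i, h⟩ < m i}

/-- The initial segment (ancestor) relation. -/
def Below {m : ℕ → ℕ} (v w : Vert m) : Prop := v.1 <+: w.1

/-- The level of a vertex. -/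
def level {m : ℕ → ℕ} (v : Vert m) : ℕ := v.1.length

/-- The group `Aut T` of automorphisms of the rooted tree. -/
def autT (m : ℕ → ℕ) : Subgroup (Equiv.Perm (Vert m)) where
  carrier := {g | ∀ v w, Below (g v) (g w) ↔ Below v w}
  mul_mem' := by
    intro a b ha hb v w
    exact (ha (b v) (b w)).trans (hb v w)
  one_mem' := by intro v w; exact Iff.rfl
  inv_mem' := by
    intro a ha v w
    have h := ha (a⁻¹ v) (a⁻¹ w)
    have e : ∀ x, a (a⁻¹ x) = x := fun x => a.apply_symm_apply x
    rw [e, e] at h
    exact h.symm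

/-- The rigid stabiliser of the vertex `u` in `L`: the elements of `L` that fix every vertex
outside the subtree rooted at `u`. -/
def rist {m : ℕ → ℕ} (L : Subgroup (Equiv.Perm (Vert m))) (u : Vert m) :
    Subgroup (Equiv.Perm (Vert m)) where
  carrier := {g | g ∈ L ∧ ∀ v, ¬ Below u v → g v = v}
  mul_mem' := by
    rintro a b ⟨ha, ha'⟩ ⟨hb, hb'⟩
    refine ⟨L.mul_mem ha hb, fun v hv => ?_⟩
    rw [Equiv.Perm.mul_apply, hb' v hv, ha' v hv]
  one_mem' := ⟨L.one_mem, fun _ _ => rfl⟩
  inv_mem' := by
    rintro a ⟨ha, ha'⟩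
    refine ⟨L.inv_mem ha, fun v hv => ?_⟩
    rw [Equiv.Perm.inv_eq_iff_eq]
    exact (ha' v hv).symm

/-- The level `n` rigid stabiliser: the subgroup generated by the rigid stabilisers of the
vertices of level `n`. -/
def ristLevel {m : ℕ → ℕ} (L : Subgroup (Equiv.Perm (Vert m))) (n : ℕ) :
    Subgroup (Equiv.Perm (Vert m)) :=
  ⨆ u : {u : Vert m // level u = n}, rist L u.1

/-- `L` is a branch group: a subgroup of `Aut T`, transitive on every level, all of whose level
rigid stabilisers have finite index. -/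
def IsBranch {m : ℕ → ℕ} (L : Subgroup (Equiv.Perm (Vert m))) : Prop :=
  L ≤ autT m ∧ (∀ v w : Vert m, level v = level w → ∃ g ∈ L, g v = w) ∧
    ∀ n, ((ristLevel L n).subgroupOf L).FiniteIndex

/-- The automorphism `φ` of `L` is conjugation by an element of `Aut T` normalising `L`. -/
def Induced {m : ℕ → ℕ} (L : Subgroup (Equiv.Perm (Vert m))) (φ : L ≃* L) : Prop :=
  ∃ σ ∈ autT m, (∀ g, g ∈ L ↔ σ * g * σ⁻¹ ∈ L) ∧
    ∀ g : L, ((φ g : L) : Equiv.Perm (Vert m)) = σ * g * σ⁻¹

/-- The branching sequence `2, 2, m 0, m 1, ...`. -/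
def ext (m : ℕ → ℕ) : ℕ → ℕ
  | 0 => 2
  | 1 => 2
  | (n + 2) => m n

section words

variable {m : ℕ → ℕ}

/-- The root. -/
def nil : Vert m := ⟨[], by intro i h; simp at h⟩

/-- The vertex `x` of level one. -/
def one (x : ZMod 2) : Vert (ext m) := ⟨[x.val], by
  intro i h
  have : i = 0 := by simpa using h
  subst this
  exact ZMod.val_lt x⟩

/-- The vertex `x y w`. -/
def cons2 (x y : ZMod 2) (w : Vert m) : Vert (ext m) := ⟨x.val :: y.val :: w.1, by
  intro i h
  match i, h with
  | 0, _ => exact ZMod.val_lt x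
  | 1, _ => exact ZMod.val_lt y
  | (n + 2), h => exact w.2 n (by simpa using h)⟩

/-- The vertices of the larger tree. -/
def splitV : Vert (ext m) ≃ (Unit ⊕ ZMod 2) ⊕ (ZMod 2 × ZMod 2 × Vert m) where
  toFun v := match v with
    | ⟨[], _⟩ => Sum.inl (Sum.inl ())
    | ⟨[x], _⟩ => Sum.inl (Sum.inr (x : ZMod 2))
    | ⟨x :: y :: l, h⟩ => Sum.inr ((x : ZMod 2), (y : ZMod 2), ⟨l, fun i hi => by
        have := h (i + 2) (by simp at hi ⊢; omega)
        exact this⟩)
  invFun s := match s with
    | Sum.inl (Sum.inl _) => nil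
    | Sum.inl (Sum.inr x) => one x
    | Sum.inr (x, y, w) => cons2 x y w
  left_inv := by
    rintro ⟨l, hl⟩
    match l, hl with
    | [], hl => rfl
    | [x], hl =>
      have h0 : x < 2 := hl 0 (by simp)
      apply Subtype.ext
      simp only [one]
      rw [ZMod.val_cast_of_lt h0]
    | x :: y :: l, hl =>
      have h0 : x < 2 := hl 0 (by simp)
      have h1 : y < 2 := hl 1 (by simp)
      apply Subtype.ext
      simp only [cons2]
      rw [ZMod.val_cast_of_lt h0, ZMod.val_cast_of_lt h1]
  right_inv := by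
    rintro ((_ | x) | ⟨x, y, w⟩)
    · rfl
    · simp [one]
    · simp [cons2] <;> rfl


lemma nil_ne_one (x : ZMod 2) : (nil : Vert (ext m)) ≠ one x := by
  intro h
  have := congrArg (fun v : Vert (ext m) => v.1.length) h
  simp [nil, one] at this

lemma vert_cases {P : Vert (ext m) → Prop} (h0 : P nil) (h1 : ∀ x, P (one x))
    (h2 : ∀ x y w, P (cons2 x y w)) : ∀ v, P v := by
  intro v
  rw [← splitV.symm_apply_apply v]
  rcases splitV v with ((_ | x) | ⟨x, y, w⟩)
  · exact h0
  · exact h1 x
  · exact h2 x y w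

lemma one_inj {x x' : ZMod 2} : (one x : Vert (ext m)) = one x' ↔ x = x' := by
  constructor
  · intro h
    have := congrArg (fun v : Vert (ext m) => v.1) h
    simp only [one, List.cons.injEq, and_true] at this
    exact ZMod.val_injective 2 this
  · rintro rfl; rfl

lemma cons2_inj {x x' y y' : ZMod 2} {w w' : Vert m} :
    cons2 x y w = cons2 x' y' w' ↔ x = x' ∧ y = y' ∧ w = w' := by
  constructor
  · intro h
    have := congrArg (fun v : Vert (ext m) => v.1) h
    simp only [cons2, List.cons.injEq] at this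
    exact ⟨ZMod.val_injective 2 this.1, ZMod.val_injective 2 this.2.1, Subtype.ext this.2.2⟩
  · rintro ⟨rfl, rfl, rfl⟩; rfl

lemma below_nil (v : Vert m) : Below nil v := List.nil_prefix

lemma below_nil_iff {v : Vert m} : Below v nil ↔ v = nil := by
  constructor
  · intro h
    apply Subtype.ext
    exact List.prefix_nil.mp h
  · rintro rfl; exact below_nil _

lemma below_one_one {x x' : ZMod 2} : Below (one x : Vert (ext m)) (one x') ↔ x = x' := by
  simp only [Below, one]
  rw [List.cons_prefix_cons]
  constructor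
  · intro h; exact ZMod.val_injective 2 h.1
  · rintro rfl; exact ⟨rfl, List.nil_prefix⟩

lemma below_one_cons {x x' y' : ZMod 2} {w' : Vert m} :
    Below (one x : Vert (ext m)) (cons2 x' y' w') ↔ x = x' := by
  simp only [Below, one, cons2]
  rw [List.cons_prefix_cons]
  constructor
  · intro h; exact ZMod.val_injective 2 h.1
  · rintro rfl; exact ⟨rfl, List.nil_prefix⟩

lemma not_below_cons_one {x y x' : ZMod 2} {w : Vert m} :
    ¬ Below (cons2 x y w) (one x' : Vert (ext m)) := by
  intro h
  have := List.IsPrefix.length_le h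
  simp [cons2, one] at this

lemma below_cons_cons {x y x' y' : ZMod 2} {w w' : Vert m} :
    Below (cons2 x y w) (cons2 x' y' w') ↔ x = x' ∧ y = y' ∧ Below w w' := by
  simp only [Below, cons2]
  rw [List.cons_prefix_cons, List.cons_prefix_cons]
  constructor
  · rintro ⟨h1, h2, h3⟩
    exact ⟨ZMod.val_injective 2 h1, ZMod.val_injective 2 h2, h3⟩
  · rintro ⟨rfl, rfl, h3⟩; exact ⟨rfl, rfl, h3⟩

@[simp] lemma level_nil : level (nil : Vert m) = 0 := rfl
@[simp] lemma level_one (x : ZMod 2) : level (one x : Vert (ext m)) = 1 := rfl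
@[simp] lemma level_cons (x y : ZMod 2) (w : Vert m) : level (cons2 x y w) = level w + 2 := by
  simp [level, cons2]

end words

section wreath

variable {m : ℕ → ℕ}

/-- The permutation `x ↦ x + a`, `x y w ↦ (x + a) (y + b) (f x y w)` of the vertices of the tree
with branching sequence `2, 2, m 0, m 1, ...`. -/
def act (a b : ZMod 2) (f : ZMod 2 → ZMod 2 → Equiv.Perm (Vert m)) :
    Equiv.Perm (Vert (ext m)) :=
  splitV.trans ((Equiv.sumCongr (Equiv.sumCongr (Equiv.refl Unit) (Equiv.addRight a))
    { toFun := fun p => (p.1 + a, p.2.1 + b, f p.1 p.2.1 p.2.2)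
      invFun := fun p => (p.1 - a, p.2.1 - b, (f (p.1 - a) (p.2.1 - b))⁻¹ p.2.2)
      left_inv := by
        rintro ⟨x, y, w⟩
        simp
      right_inv := by
        rintro ⟨x, y, w⟩
        simp }).trans splitV.symm)

@[simp] lemma act_nil (a b : ZMod 2) (f : ZMod 2 → ZMod 2 → Equiv.Perm (Vert m)) :
    act a b f nil = nil := rfl

@[simp] lemma act_one (a b : ZMod 2) (f : ZMod 2 → ZMod 2 → Equiv.Perm (Vert m)) (x : ZMod 2) :
    act a b f (one x) = one (x + a) := by
  have : splitV (one x : Vert (ext m)) = Sum.inl (Sum.inr x) :=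
    splitV.apply_symm_apply (Sum.inl (Sum.inr x))
  simp only [act, Equiv.trans_apply, this]
  rfl

@[simp] lemma act_cons (a b : ZMod 2) (f : ZMod 2 → ZMod 2 → Equiv.Perm (Vert m))
    (x y : ZMod 2) (w : Vert m) :
    act a b f (cons2 x y w) = cons2 (x + a) (y + b) (f x y w) := by
  have : splitV (cons2 x y w : Vert (ext m)) = Sum.inr (x, y, w) :=
    splitV.apply_symm_apply (Sum.inr (x, y, w))
  simp only [act, Equiv.trans_apply, this]
  rfl

lemma act_mul (a b a' b' : ZMod 2) (f f' : ZMod 2 → ZMod 2 → Equiv.Perm (Vert m)) :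
    act a b f * act a' b' f' =
      act (a' + a) (b' + b) (fun x y => f (x + a') (y + b') * f' x y) := by
  apply Equiv.ext
  apply vert_cases
  · rfl
  · intro x
    simp [Equiv.Perm.mul_apply, add_assoc]
  · intro x y w
    simp [Equiv.Perm.mul_apply, add_assoc]

lemma act_one_eq : act 0 0 (fun _ _ => (1 : Equiv.Perm (Vert m))) = 1 := by
  apply Equiv.ext
  apply vert_cases
  · rfl
  · intro x; simp
  · intro x y w; simp

lemma act_inv (a b : ZMod 2) (f : ZMod 2 → ZMod 2 → Equiv.Perm (Vert m)) :
    (act a b f)⁻¹ = act a b (fun x y => (f (x + a) (y + b))⁻¹) := by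
  rw [inv_eq_iff_mul_eq_one, act_mul, ← act_one_eq]
  congr 1
  · exact CharTwo.add_self_eq_zero a
  · exact CharTwo.add_self_eq_zero b
  · funext x y
    simp

lemma act_inj {a b a' b' : ZMod 2} {f f' : ZMod 2 → ZMod 2 → Equiv.Perm (Vert m)}
    (h : act a b f = act a' b' f') : a = a' ∧ b = b' ∧ f = f' := by
  have h1 : ∀ x y w, cons2 (x + a) (y + b) (f x y w) = cons2 (x + a') (y + b') (f' x y w) := by
    intro x y w
    rw [← act_cons, ← act_cons, h]
  have h2 := fun x y w => cons2_inj.mp (h1 x y w)
  refine ⟨add_left_cancel (h2 0 0 nil).1, add_left_cancel (h2 0 0 nil).2.1, ?_⟩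
  funext x y
  exact Equiv.ext fun w => (h2 x y w).2.2

/-- The permutational wreath product of `Λ` with Klein's four-group, acting on the tree with
branching sequence `2, 2, m 0, m 1, ...`: the four-group acts on the four words of length two by
translations, and each of the four subtrees below them carries its own copy of `Λ`. -/
def wr (Λ : Subgroup (Equiv.Perm (Vert m))) : Subgroup (Equiv.Perm (Vert (ext m))) where
  carrier := {g | ∃ (a b : ZMod 2) (f : ZMod 2 → ZMod 2 → Equiv.Perm (Vert m)),
    (∀ x y, f x y ∈ Λ) ∧ g = act a b f}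
  mul_mem' := by
    rintro _ _ ⟨a, b, f, hf, rfl⟩ ⟨a', b', f', hf', rfl⟩
    exact ⟨_, _, _, fun x y => Λ.mul_mem (hf _ _) (hf' _ _), act_mul _ _ _ _ _ _⟩
  one_mem' := ⟨0, 0, fun _ _ => 1, fun _ _ => Λ.one_mem, act_one_eq.symm⟩
  inv_mem' := by
    rintro _ ⟨a, b, f, hf, rfl⟩
    exact ⟨_, _, _, fun x y => Λ.inv_mem (hf _ _), act_inv _ _ _⟩


lemma mem_wr {Λ : Subgroup (Equiv.Perm (Vert m))} {g : Equiv.Perm (Vert (ext m))} :
    g ∈ wr Λ ↔ ∃ (a b : ZMod 2) (f : ZMod 2 → ZMod 2 → Equiv.Perm (Vert m)),
      (∀ x y, f x y ∈ Λ) ∧ g = act a b f := Iff.rfl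

lemma act_mem_autT {a b : ZMod 2} {f : ZMod 2 → ZMod 2 → Equiv.Perm (Vert m)}
    (hf : ∀ x y, f x y ∈ autT m) : act a b f ∈ autT (ext m) := by
  show ∀ v w, Below (act a b f v) (act a b f w) ↔ Below v w
  intro v
  refine vert_cases (P := fun v => ∀ w, Below (act a b f v) (act a b f w) ↔ Below v w)
    ?_ ?_ ?_ v
  · intro w
    rw [act_nil]
    exact ⟨fun _ => below_nil _, fun _ => below_nil _⟩
  · intro x
    apply vert_cases
    · rw [act_nil, below_nil_iff, below_nil_iff, act_one]
      exact ⟨fun h => absurd h.symm (nil_ne_one _), fun h => absurd h.symm (nil_ne_one _)⟩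
    · intro x'
      rw [act_one, act_one, below_one_one, below_one_one, add_left_inj]
    · intro x' y' w'
      rw [act_one, act_cons, below_one_cons, below_one_cons, add_left_inj]
  · intro x y w
    apply vert_cases
    · rw [act_nil, below_nil_iff, below_nil_iff, act_cons]
      constructor
      · intro h
        have := congrArg level h
        simp at this
      · intro h
        have := congrArg level h
        simp at this
    · intro x'
      rw [act_one, act_cons]
      exact ⟨fun h => absurd h not_below_cons_one, fun h => absurd h not_below_cons_one⟩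
    · intro x' y' w'
      rw [act_cons, act_cons, below_cons_cons, below_cons_cons, add_left_inj, add_left_inj]
      constructor
      · rintro ⟨rfl, rfl, h⟩
        exact ⟨rfl, rfl, (hf x y w w').mp h⟩
      · rintro ⟨rfl, rfl, h⟩
        exact ⟨rfl, rfl, (hf x y w w').mpr h⟩

/-- The element acting as `h` on the subtree at the word `x y` and trivially elsewhere. -/
def emb (x y : ZMod 2) (h : Equiv.Perm (Vert m)) : Equiv.Perm (Vert (ext m)) :=
  act 0 0 (fun x' y' => if x' = x ∧ y' = y then h else 1)

lemma emb_mem {Λ : Subgroup (Equiv.Perm (Vert m))} {h : Equiv.Perm (Vert m)} (hh : h ∈ Λ)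
    (x y : ZMod 2) : emb x y h ∈ wr Λ := by
  refine ⟨0, 0, _, ?_, rfl⟩
  intro x' y'
  split_ifs
  · exact hh
  · exact Λ.one_mem

lemma emb_mul (x y : ZMod 2) (h h' : Equiv.Perm (Vert m)) :
    emb x y h * emb x y h' = emb x y (h * h') := by
  unfold emb
  rw [act_mul]
  congr 1
  funext x' y'
  simp only [add_zero]
  split_ifs <;> simp

lemma emb_one (x y : ZMod 2) : emb x y (1 : Equiv.Perm (Vert m)) = 1 := by
  unfold emb
  simp only [ite_self]
  exact act_one_eq

lemma emb_inv (x y : ZMod 2) (h : Equiv.Perm (Vert m)) : (emb x y h)⁻¹ = emb x y h⁻¹ := by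
  rw [inv_eq_iff_mul_eq_one, emb_mul, mul_inv_cancel, emb_one]

/-- `emb x y` as a homomorphism. -/
def embHom (x y : ZMod 2) : Equiv.Perm (Vert m) →* Equiv.Perm (Vert (ext m)) where
  toFun := emb x y
  map_one' := emb_one x y
  map_mul' h h' := (emb_mul x y h h').symm

lemma emb_rist {Λ : Subgroup (Equiv.Perm (Vert m))} {u : Vert m} {h : Equiv.Perm (Vert m)}
    (hh : h ∈ rist Λ u) (x y : ZMod 2) {t : Vert (ext m)} (ht : Below t (cons2 x y u)) :
    emb x y h ∈ rist (wr Λ) t := by
  refine ⟨emb_mem hh.1 x y, ?_⟩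
  apply vert_cases
  · intro _; rfl
  · intro x' _
    simp [emb]
  · intro x' y' w hv
    simp only [emb, act_cons, add_zero]
    split_ifs with hc
    · obtain ⟨rfl, rfl⟩ := hc
      rw [hh.2 w]
      intro hu
      apply hv
      exact List.IsPrefix.trans ht (below_cons_cons.mpr ⟨rfl, rfl, hu⟩)
    · rfl

/-- The initial segment of length `n`. -/
def takeV (n : ℕ) (v : Vert m) : Vert m := ⟨v.1.take n, by
  intro i h
  have h' : i < v.1.length := lt_of_lt_of_le h (by simp)
  have := v.2 i h'
  simpa using this⟩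

lemma takeV_below (n : ℕ) (v : Vert m) : Below (takeV n v) v := List.take_prefix _ _

lemma level_takeV {n : ℕ} {v : Vert m} (h : n ≤ level v) : level (takeV n v) = n := by
  simp only [level, takeV, List.length_take]
  exact min_eq_left h

lemma emb_ristLevel {Λ : Subgroup (Equiv.Perm (Vert m))} {n : ℕ} {h : Equiv.Perm (Vert m)}
    (hh : h ∈ ristLevel Λ (n - 2)) (x y : ZMod 2) : emb x y h ∈ ristLevel (wr Λ) n := by
  have key : ristLevel Λ (n - 2) ≤ (ristLevel (wr Λ) n).comap (embHom x y) := by
    apply iSup_le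
    rintro ⟨u, hu⟩ g hg
    show emb x y g ∈ ristLevel (wr Λ) n
    have hlev : n ≤ level (cons2 x y u) := by rw [level_cons, hu]; omega
    have h1 := emb_rist hg x y (takeV_below n (cons2 x y u))
    exact (le_iSup (fun t : {t : Vert (ext m) // level t = n} => rist (wr Λ) t.1)
      ⟨_, level_takeV hlev⟩) h1
  exact key hh

/-- If a map to a finite type separates left cosets of `K`, then `K` has finite index. -/
lemma finiteIndex_of_map {G X : Type} [Group G] [Finite X] (K : Subgroup G) (F : G → X)
    (hF : ∀ g g', F g = F g' → g⁻¹ * g' ∈ K) : K.FiniteIndex := by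
  have hinj : Function.Injective (fun q : G ⧸ K => F q.out) := by
    intro q q' h
    have := hF _ _ h
    rw [← QuotientGroup.eq] at this
    simpa using this
  have : Finite (G ⧸ K) := Finite.of_injective _ hinj
  exact Subgroup.finiteIndex_of_finite_quotient


lemma two_cancel (x a : ZMod 2) : x + a + a = x := by
  rw [add_assoc, CharTwo.add_self_eq_zero, add_zero]

lemma act_prod (h : ZMod 2 → ZMod 2 → Equiv.Perm (Vert m)) :
    act 0 0 h = emb 0 0 (h 0 0) * emb 0 1 (h 0 1) * emb 1 0 (h 1 0) * emb 1 1 (h 1 1) := by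
  unfold emb
  rw [act_mul, act_mul, act_mul]
  simp only [add_zero]
  congr 1
  funext x y
  have h01 : ¬ (0 : ZMod 2) = 1 := by decide
  have h10 : ¬ (1 : ZMod 2) = 0 := by decide
  have hz : ∀ z : ZMod 2, z = 0 ∨ z = 1 := by decide
  rcases hz x with rfl | rfl <;> rcases hz y with rfl | rfl <;> simp [h01, h10]

theorem wr_transitive {Λ : Subgroup (Equiv.Perm (Vert m))}
    (hΛ : ∀ v w : Vert m, level v = level w → ∃ g ∈ Λ, g v = w) (v w : Vert (ext m))
    (h : level v = level w) : ∃ g ∈ wr Λ, g v = w := by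
  revert h
  refine vert_cases (P := fun v => level v = level w → ∃ g ∈ wr Λ, g v = w) ?_ ?_ ?_ v
  · refine vert_cases (P := fun w => level nil = level w → ∃ g ∈ wr Λ, g nil = w) ?_ ?_ ?_ w
    · intro _; exact ⟨1, (wr Λ).one_mem, rfl⟩
    · intro x h; simp at h
    · intro x y u h; simp at h
  · intro x
    refine vert_cases (P := fun w => level (one x) = level w → ∃ g ∈ wr Λ, g (one x) = w)
      ?_ ?_ ?_ w
    · intro h; simp at h
    · intro x' _
      refine ⟨act (x' - x) 0 (fun _ _ => 1), ⟨_, _, _, fun _ _ => Λ.one_mem, rfl⟩, ?_⟩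
      simp
    · intro x y u h; simp at h
  · intro x y u
    refine vert_cases (P := fun w => level (cons2 x y u) = level w →
      ∃ g ∈ wr Λ, g (cons2 x y u) = w) ?_ ?_ ?_ w
    · intro h; simp at h
    · intro x' h; simp at h
    · intro x' y' u' h
      obtain ⟨g, hg, hgu⟩ := hΛ u u' (by simpa using h)
      refine ⟨act (x' - x) (y' - y) (fun _ _ => g), ⟨_, _, _, fun _ _ => hg, rfl⟩, ?_⟩
      simp [hgu]

theorem wr_isBranch {Λ : Subgroup (Equiv.Perm (Vert m))} (hΛ : IsBranch Λ) :
    IsBranch (wr Λ) := by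
  obtain ⟨h1, h2, h3⟩ := hΛ
  refine ⟨?_, wr_transitive h2, ?_⟩
  · rintro _ ⟨a, b, f, hf, rfl⟩
    exact act_mem_autT fun x y => h1 (hf x y)
  · intro n
    have := h3 (n - 2)
    have hfin : Finite (Λ ⧸ (ristLevel Λ (n - 2)).subgroupOf Λ) :=
      Subgroup.finite_quotient_of_finiteIndex
    choose a b f hf hg using fun g : wr Λ => g.2
    refine finiteIndex_of_map (X := (ZMod 2 × ZMod 2) ×
      (ZMod 2 → ZMod 2 → Λ ⧸ (ristLevel Λ (n - 2)).subgroupOf Λ)) _
      (fun g => ((a g, b g), fun x y => QuotientGroup.mk ⟨f g x y, hf g x y⟩)) ?_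
    intro g g' h
    simp only [Prod.mk.injEq] at h
    obtain ⟨⟨ha, hb⟩, hq⟩ := h
    rw [Subgroup.mem_subgroupOf]
    have e : ((g⁻¹ * g' : wr Λ) : Equiv.Perm (Vert (ext m))) =
        act 0 0 (fun x y => (f g x y)⁻¹ * f g' x y) := by
      rw [Subgroup.coe_mul, Subgroup.coe_inv, hg g, hg g', ← ha, ← hb, act_inv, act_mul]
      congr 1
      · exact CharTwo.add_self_eq_zero _
      · exact CharTwo.add_self_eq_zero _
      · funext x y
        rw [two_cancel, two_cancel]
    have hmem : ∀ x y, (f g x y)⁻¹ * f g' x y ∈ ristLevel Λ (n - 2) := by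
      intro x y
      have := congrFun (congrFun hq x) y
      rw [QuotientGroup.eq, Subgroup.mem_subgroupOf] at this
      exact this
    rw [e, act_prod]
    exact Subgroup.mul_mem _ (Subgroup.mul_mem _ (Subgroup.mul_mem _
      (emb_ristLevel (hmem _ _) _ _) (emb_ristLevel (hmem _ _) _ _))
      (emb_ristLevel (hmem _ _) _ _)) (emb_ristLevel (hmem _ _) _ _)

/-- The exceptional automorphism of the wreath product: it exchanges the two coordinates of the
four-group and the subtrees at the words `0 1` and `1 0`. -/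
theorem exists_swap (Λ : Subgroup (Equiv.Perm (Vert m))) :
    ∃ φ : wr Λ ≃* wr Λ, ∀ (g : wr Λ) (a b : ZMod 2) (f : ZMod 2 → ZMod 2 → Equiv.Perm (Vert m)),
      (g : Equiv.Perm (Vert (ext m))) = act a b f →
      ((φ g : wr Λ) : Equiv.Perm (Vert (ext m))) = act b a (fun x y => f y x) := by
  choose a b f hf hg using fun g : wr Λ => g.2
  let s : wr Λ → wr Λ := fun g => ⟨act (b g) (a g) (fun x y => f g y x),
    ⟨_, _, _, fun x y => hf g y x, rfl⟩⟩
  have hs : ∀ (g : wr Λ) (a' b' : ZMod 2) (f' : ZMod 2 → ZMod 2 → Equiv.Perm (Vert m)),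
      (g : Equiv.Perm (Vert (ext m))) = act a' b' f' →
      ((s g : wr Λ) : Equiv.Perm (Vert (ext m))) = act b' a' (fun x y => f' y x) := by
    intro g a' b' f' h
    obtain ⟨e1, e2, e3⟩ := act_inj ((hg g).symm.trans h)
    show act (b g) (a g) (fun x y => f g y x) = _
    rw [e1, e2, e3]
  have hss : ∀ g, s (s g) = g := by
    intro g
    apply Subtype.ext
    rw [hs (s g) _ _ _ (hs g _ _ _ (hg g))]
    exact (hg g).symm
  refine ⟨{ toFun := s, invFun := s, left_inv := hss, right_inv := hss, map_mul' := ?_ }, hs⟩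
  intro g h
  apply Subtype.ext
  have e : ((g * h : wr Λ) : Equiv.Perm (Vert (ext m))) =
      act (a h + a g) (b h + b g) (fun x y => f g (x + a h) (y + b h) * f h x y) := by
    rw [Subgroup.coe_mul, hg g, hg h, act_mul]
  rw [hs _ _ _ _ e, Subgroup.coe_mul, hs g _ _ _ (hg g), hs h _ _ _ (hg h), act_mul]

theorem swap_not_induced {Λ : Subgroup (Equiv.Perm (Vert m))} {h : Equiv.Perm (Vert m)}
    (hh : h ∈ Λ) {w : Vert m} (hw : h w ≠ w) (φ : wr Λ ≃* wr Λ)
    (hφ : ∀ (g : wr Λ) (a b : ZMod 2) (f : ZMod 2 → ZMod 2 → Equiv.Perm (Vert m)),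
      (g : Equiv.Perm (Vert (ext m))) = act a b f →
      ((φ g : wr Λ) : Equiv.Perm (Vert (ext m))) = act b a (fun x y => f y x)) :
    ¬ Induced (wr Λ) φ := by
  rintro ⟨σ, hσ, -, hind⟩
  have hσ' : ∀ v w, Below (σ v) (σ w) ↔ Below v w := hσ
  -- `σ` maps points moved by `g` to points moved by `φ g`
  have key : ∀ x y : ZMod 2, ∃ w' : Vert m, σ (cons2 x y w) = cons2 y x w' := by
    intro x y
    have h1 := hφ ⟨emb x y h, emb_mem hh x y⟩ 0 0
      (fun x' y' => if x' = x ∧ y' = y then h else 1) rfl
    rw [hind] at h1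
    have h2 : (σ * emb x y h * σ⁻¹) (σ (cons2 x y w)) = σ (cons2 x y (h w)) := by
      simp [Equiv.Perm.mul_apply, emb]
    have h3 : (σ * emb x y h * σ⁻¹) (σ (cons2 x y w)) ≠ σ (cons2 x y w) := by
      rw [h2]
      intro h4
      exact hw (cons2_inj.mp (σ.injective h4)).2.2
    have h4 : σ * emb x y h * σ⁻¹ = emb y x h := by
      rw [h1]
      unfold emb
      congr 1
      funext x' y'
      by_cases hc : y' = x ∧ x' = y
      · rw [if_pos hc, if_pos ⟨hc.2, hc.1⟩]
      · rw [if_neg hc, if_neg (fun h' => hc ⟨h'.2, h'.1⟩)]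
    rw [h4] at h3
    revert h3
    refine vert_cases (P := fun v => emb y x h v ≠ v → ∃ w' : Vert m, v = cons2 y x w')
      ?_ ?_ ?_ (σ (cons2 x y w))
    · intro h5; exact absurd rfl h5
    · intro x' h5
      exact absurd (by simp [emb]) h5
    · intro x' y' w' h5
      by_cases hc : x' = y ∧ y' = x
      · exact ⟨w', by rw [hc.1, hc.2]⟩
      · exact absurd (by simp [emb, hc]) h5
  obtain ⟨w0, hw0⟩ := key 0 0
  obtain ⟨w1, hw1⟩ := key 0 1
  have hn : σ nil = nil := by
    apply below_nil_iff.mp
    have := (hσ' nil (σ⁻¹ nil)).mpr (below_nil _)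
    have e : σ (σ⁻¹ nil) = nil := σ.apply_symm_apply nil
    rwa [e] at this
  have b0 : Below (σ (one 0)) (cons2 0 0 w0) := by
    rw [← hw0, hσ']
    exact below_one_cons.mpr rfl
  have b1 : Below (σ (one 0)) (cons2 1 0 w1) := by
    rw [← hw1, hσ']
    exact below_one_cons.mpr rfl
  have hne : σ (one 0) ≠ nil := by
    intro h5
    rw [← hn] at h5
    exact nil_ne_one 0 (σ.injective h5).symm
  revert b0 b1 hne
  refine vert_cases (P := fun v => Below v (cons2 0 0 w0) → Below v (cons2 1 0 w1) →
    v ≠ nil → False) ?_ ?_ ?_ (σ (one 0))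
  · intro _ _ h5; exact h5 rfl
  · intro x b0 b1 _
    rw [below_one_cons] at b0 b1
    rw [b0] at b1
    exact zero_ne_one b1
  · intro x y u b0 b1 _
    rw [below_cons_cons] at b0 b1
    rw [b0.1] at b1
    exact zero_ne_one b1.1

end wreath

section full

variable {m : ℕ → ℕ}

lemma eq_of_below {u v w : Vert m} (hu : Below u w) (hv : Below v w) (h : level u = level v) :
    u = v := by
  apply Subtype.ext
  rw [List.prefix_iff_eq_take.mp hu, List.prefix_iff_eq_take.mp hv]
  have : u.1.length = v.1.length := h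
  rw [this]

lemma level_le_aut {g : Equiv.Perm (Vert m)} (hg : g ∈ autT m) :
    ∀ (k : ℕ) (v : Vert m), level v = k → k ≤ level (g v) := by
  intro k
  induction k with
  | zero => intro v _; exact Nat.zero_le _
  | succ k ih =>
    intro v hv
    have h1 : level (takeV k v) = k := level_takeV (by omega)
    have h2 := ih _ h1
    have h3 : Below (g (takeV k v)) (g v) := (hg _ _).mpr (takeV_below k v)
    have h4 : level (g (takeV k v)) ≤ level (g v) := List.IsPrefix.length_le h3
    rcases Nat.lt_or_ge (level (g (takeV k v))) (level (g v)) with h5 | h5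
    · omega
    · have h6 := eq_of_below h3 (List.prefix_refl _) (le_antisymm h4 h5)
      have h7 := g.injective h6
      rw [h7] at h1
      omega

lemma level_aut {g : Equiv.Perm (Vert m)} (hg : g ∈ autT m) (v : Vert m) :
    level (g v) = level v := by
  apply le_antisymm
  · have := level_le_aut ((autT m).inv_mem hg) _ (g v) rfl
    have e : g⁻¹ (g v) = v := g.symm_apply_apply v
    rwa [e] at this
  · exact level_le_aut hg _ v rfl

lemma finite_level (n : ℕ) : Finite {v : Vert m // level v = n} := by
  refine Finite.of_injective (β := (i : Fin n) → Fin (m i))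
    (fun v i => ⟨v.1.1.get ⟨i.1, by rw [show v.1.1.length = n from v.2]; exact i.2⟩,
      v.1.2 _ _⟩) ?_
  rintro ⟨v, hv⟩ ⟨w, hw⟩ h
  apply Subtype.ext
  apply Subtype.ext
  apply List.ext_getElem
  · exact hv.trans hw.symm
  · intro i h1 h2
    have := congrFun h ⟨i, by rw [← hv]; exact h1⟩
    simpa using this

lemma finite_level_le (n : ℕ) : Finite {v : Vert m // level v ≤ n} := by
  have : {v : Vert m | level v ≤ n} = ⋃ k ∈ Set.Iic n, {v : Vert m | level v = k} := by
    ext v
    simp
  have h2 : ({v : Vert m | level v ≤ n}).Finite := by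
    rw [this]
    refine Set.Finite.biUnion (Set.finite_Iic n) fun k _ => ?_
    exact Set.finite_coe_iff.mp (finite_level (m := m) k)
  exact h2


open Classical in
/-- The restriction of a permutation to the subtree at a vertex it fixes. -/
noncomputable def restr (g : Equiv.Perm (Vert m)) (hg : g ∈ autT m) (u : Vert m)
    (hu : g u = u) : Equiv.Perm (Vert m) where
  toFun v := if Below u v then g v else v
  invFun v := if Below u v then g⁻¹ v else v
  left_inv := by
    intro v
    by_cases h : Below u v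
    · have h2 : Below u (g v) := by
        have := (hg u v).mpr h
        rwa [hu] at this
      simp only [if_pos h, if_pos h2]
      exact g.symm_apply_apply v
    · simp only [if_neg h]
  right_inv := by
    intro v
    by_cases h : Below u v
    · have h2 : Below u (g⁻¹ v) := by
        have := (hg u (g⁻¹ v)).mp
        rw [hu, show g (g⁻¹ v) = v from g.apply_symm_apply v] at this
        exact this h
      simp only [if_pos h, if_pos h2]
      exact g.apply_symm_apply v
    · simp only [if_neg h]

lemma restr_pos {g : Equiv.Perm (Vert m)} {hg : g ∈ autT m} {u : Vert m} {hu : g u = u}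
    {v : Vert m} (h : Below u v) : restr g hg u hu v = g v := if_pos h

lemma restr_neg {g : Equiv.Perm (Vert m)} {hg : g ∈ autT m} {u : Vert m} {hu : g u = u}
    {v : Vert m} (h : ¬ Below u v) : restr g hg u hu v = v := if_neg h

lemma below_or {u v w : Vert m} (h : Below u w) (h' : Below v w) : Below u v ∨ Below v u :=
  List.prefix_or_prefix_of_prefix h h'

lemma restr_mem (g : Equiv.Perm (Vert m)) (hg : g ∈ autT m) (u : Vert m) (hu : g u = u) :
    restr g hg u hu ∈ rist (autT m) u := by
  have hb : ∀ v, Below u (g v) ↔ Below u v := by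
    intro v
    have := hg u v
    rwa [hu] at this
  refine ⟨?_, fun v hv => restr_neg hv⟩
  intro v w
  by_cases hv : Below u v <;> by_cases hw : Below u w
  · rw [restr_pos hv, restr_pos hw]; exact hg v w
  · rw [restr_pos hv, restr_neg hw]
    constructor
    · intro h
      exact absurd (List.IsPrefix.trans ((hb v).mpr hv) h) hw
    · intro h
      exact absurd (List.IsPrefix.trans hv h) hw
  · rw [restr_neg hv, restr_pos hw]
    constructor
    · intro h
      rcases below_or h ((hb w).mpr hw) with h1 | h1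
      · exact List.IsPrefix.trans h1 hw
      · exact absurd h1 hv
    · intro h
      rcases below_or h hw with h1 | h1
      · exact List.IsPrefix.trans h1 ((hb w).mpr hw)
      · exact absurd h1 hv
  · rw [restr_neg hv, restr_neg hw]

lemma mem_ristLevel_of_fix (n : ℕ) (S : Finset {u : Vert m // level u = n}) :
    ∀ g ∈ autT m, (∀ u : {u : Vert m // level u = n}, g u.1 = u.1) →
      (∀ v, (∀ u ∈ S, ¬ Below u.1 v) → g v = v) → g ∈ ristLevel (autT m) n := by
  classical
  induction S using Finset.induction_on with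
  | empty =>
    intro g _ _ h
    have : g = 1 := Equiv.ext fun v => h v (by simp)
    rw [this]
    exact Subgroup.one_mem _
  | insert u S _ ih =>
    intro g hg hfix h
    have h1 : restr g hg u.1 (hfix u) ∈ rist (autT m) u.1 := restr_mem g hg u.1 (hfix u)
    have h2 : restr g hg u.1 (hfix u) ∈ ristLevel (autT m) n :=
      (le_iSup (fun t : {t : Vert m // level t = n} => rist (autT m) t.1) u) h1
    have h3 : (restr g hg u.1 (hfix u))⁻¹ * g ∈ ristLevel (autT m) n := by
      apply ih
      · exact (autT m).mul_mem ((autT m).inv_mem h1.1) hg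
      · intro t
        rw [Equiv.Perm.mul_apply, Equiv.Perm.inv_eq_iff_eq, hfix t]
        by_cases hc : Below u.1 t.1
        · rw [restr_pos hc, hfix t]
        · rw [restr_neg hc]
      · intro v hv
        rw [Equiv.Perm.mul_apply, Equiv.Perm.inv_eq_iff_eq]
        by_cases hc : Below u.1 v
        · rw [restr_pos hc]
        · rw [restr_neg hc]
          apply h
          intro t ht
          rcases Finset.mem_insert.mp ht with rfl | ht
          · exact hc
          · exact hv t ht
    have h4 := Subgroup.mul_mem _ h2 h3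
    rwa [mul_inv_cancel_left] at h4

/-- The tree automorphism adding the sequence `s` coordinatewise. -/
def trans (m : ℕ → ℕ) (hm : ∀ n, 0 < m n) (s : ℕ → ℕ) (v : Vert m) : Vert m :=
  ⟨v.1.mapIdx (fun i a => (a + s i) % m i), by
    intro i h
    simp only [List.get_eq_getElem, List.getElem_mapIdx]
    exact Nat.mod_lt _ (hm i)⟩

lemma trans_trans (hm : ∀ n, 0 < m n) (s t : ℕ → ℕ) (hst : ∀ i, m i ∣ s i + t i) (v : Vert m) :
    trans m hm t (trans m hm s v) = v := by
  apply Subtype.ext
  apply List.ext_getElem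
  · simp [trans]
  · intro i h1 h2
    simp only [trans, List.getElem_mapIdx]
    rw [Nat.mod_add_mod, add_assoc, Nat.add_mod, Nat.mod_eq_zero_of_dvd (hst i), add_zero,
      Nat.mod_mod]
    exact Nat.mod_eq_of_lt (v.2 i h2)

lemma trans_below (hm : ∀ n, 0 < m n) (s : ℕ → ℕ) {v w : Vert m} (h : Below v w) :
    Below (trans m hm s v) (trans m hm s w) := by
  obtain ⟨t, ht⟩ := h
  refine ⟨(t.mapIdx (fun i a => (a + s (i + v.1.length)) % m (i + v.1.length))), ?_⟩
  simp only [trans, ← ht, List.mapIdx_append]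

/-- The tree automorphism adding the sequence `s` coordinatewise. -/
def transPerm (m : ℕ → ℕ) (hm : ∀ n, 0 < m n) (s : ℕ → ℕ) : Equiv.Perm (Vert m) where
  toFun := trans m hm s
  invFun := trans m hm (fun i => (m i - 1) * s i)
  left_inv := trans_trans hm _ _ fun i => by
    refine ⟨s i, ?_⟩
    have := hm i
    obtain ⟨k, hk⟩ := Nat.exists_eq_add_of_lt this
    rw [hk]
    simp only [Nat.zero_add, Nat.add_sub_cancel]
    ring
  right_inv := trans_trans hm _ _ fun i => by
    refine ⟨s i, ?_⟩
    have := hm i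
    obtain ⟨k, hk⟩ := Nat.exists_eq_add_of_lt this
    rw [hk]
    simp only [Nat.zero_add, Nat.add_sub_cancel]
    ring

lemma transPerm_mem (hm : ∀ n, 0 < m n) (s : ℕ → ℕ) : transPerm m hm s ∈ autT m := by
  intro v w
  constructor
  · intro h
    have h2 := trans_below hm (fun i => (m i - 1) * s i) h
    have e := (transPerm m hm s).left_inv
    change Below ((transPerm m hm s).invFun ((transPerm m hm s).toFun v))
      ((transPerm m hm s).invFun ((transPerm m hm s).toFun w)) at h2
    rwa [e, e] at h2
  · exact trans_below hm s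

/-- The full automorphism group of the tree is a branch group. -/
theorem autT_isBranch (hm : ∀ n, 0 < m n) : IsBranch (autT m) := by
  refine ⟨le_refl _, ?_, ?_⟩
  · intro v w h
    refine ⟨transPerm m hm (fun i => w.1.getD i 0 + (m i - v.1.getD i 0)),
      transPerm_mem hm _, ?_⟩
    apply Subtype.ext
    apply List.ext_getElem
    · show (trans m hm _ v).1.length = _
      simp only [trans, List.length_mapIdx]
      exact h
    · intro i h1 h2
      have h3 : i < v.1.length := by
        have : v.1.length = w.1.length := h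
        omega
      show (trans m hm _ v).1[i] = _
      simp only [trans, List.getElem_mapIdx]
      rw [List.getD_eq_getElem _ _ h2, List.getD_eq_getElem _ _ h3]
      have h4 : v.1[i] < m i := v.2 i h3
      have h5 : w.1[i] < m i := w.2 i h2
      rw [show v.1[i] + (w.1[i] + (m i - v.1[i])) = w.1[i] + m i by omega,
        Nat.add_mod_right]
      exact Nat.mod_eq_of_lt h5
  · intro n
    have h1 := finite_level_le (m := m) n
    have h2 := finite_level (m := m) n
    refine finiteIndex_of_map (X := {v : Vert m // level v ≤ n} → {v : Vert m // level v ≤ n}) _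
      (fun g v => ⟨g.1 v.1, by rw [level_aut g.2]; exact v.2⟩) ?_
    intro g g' h
    rw [Subgroup.mem_subgroupOf]
    have hfix : ∀ v : Vert m, level v ≤ n → (g.1⁻¹ * g'.1) v = v := by
      intro v hv
      have h3 := congrFun h ⟨v, hv⟩
      have h4 : g.1 v = g'.1 v := congrArg Subtype.val h3
      rw [Equiv.Perm.mul_apply, Equiv.Perm.inv_eq_iff_eq, h4]
    have := Fintype.ofFinite {v : Vert m // level v = n}
    apply mem_ristLevel_of_fix n Finset.univ
    · exact (autT m).mul_mem ((autT m).inv_mem g.2) g'.2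
    · intro u
      exact hfix u.1 u.2.le
    · intro v hv
      apply hfix
      by_contra hc
      have hc' : n ≤ level v := by omega
      exact hv ⟨takeV n v, level_takeV hc'⟩ (Finset.mem_univ _) (takeV_below n v)

end full

/-- There are branch groups `L` acting on spherically homogeneous rooted trees `T` for which
`Aut L` is not the normaliser of `L` in `Aut T`. In fact, for every branch group `Λ` on the tree
with branching sequence `m`, the wreath product of `Λ` with Klein's four-group is a branch group on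
the tree with branching sequence `2, 2, m 0, m 1, ...`, and it has an automorphism that is not
conjugation by any automorphism of that tree. -/
theorem result :
    (¬ ∀ m : ℕ → ℕ, (∀ n, 2 ≤ m n) → ∀ L : Subgroup (Equiv.Perm (Vert m)), IsBranch L →
      ∀ φ : L ≃* L, Induced L φ) ∧
    (∀ m : ℕ → ℕ, (∀ n, 2 ≤ m n) → ∀ Λ : Subgroup (Equiv.Perm (Vert m)), IsBranch Λ →
      IsBranch (wr Λ) ∧ ∃ φ : wr Λ ≃* wr Λ, ¬ Induced (wr Λ) φ) := by
  have key : ∀ m : ℕ → ℕ, (∀ n, 2 ≤ m n) → ∀ Λ : Subgroup (Equiv.Perm (Vert m)), IsBranch Λ →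
      IsBranch (wr Λ) ∧ ∃ φ : wr Λ ≃* wr Λ, ¬ Induced (wr Λ) φ := by
    intro m hm Λ hΛ
    refine ⟨wr_isBranch hΛ, ?_⟩
    have h0 : 0 < m 0 := by have := hm 0; omega
    have h1 : 1 < m 0 := by have := hm 0; omega
    let v0 : Vert m := ⟨[0], by
      intro i h
      have : i = 0 := by simpa using h
      subst this
      exact h0⟩
    let v1 : Vert m := ⟨[1], by
      intro i h
      have : i = 0 := by simpa using h
      subst this
      exact h1⟩
    obtain ⟨h, hh, hv⟩ := hΛ.2.1 v0 v1 rfl
    have hne : h v0 ≠ v0 := by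
      rw [hv]
      intro e
      have := congrArg Subtype.val e
      simp [v0, v1] at this
    obtain ⟨φ, hφ⟩ := exists_swap Λ
    exact ⟨φ, swap_not_induced hh hne φ hφ⟩
  refine ⟨?_, key⟩
  intro hall
  have h2 : ∀ n : ℕ, 2 ≤ (fun _ : ℕ => 2) n := fun _ => le_refl _
  obtain ⟨hb, φ, hφ⟩ := key (fun _ => 2) h2 (autT _) (autT_isBranch fun _ => by norm_num)
  refine hφ (hall (ext fun _ => 2) ?_ _ hb φ)
  intro n
  match n with
  | 0 => exact le_refl _
  | 1 => exact le_refl _
  | (n + 2) => exact le_refl _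

end Pool.Agent.Results.MP_79f901_al.WreathV4
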